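import Pool.Agent.helper81.CW.Spec1

/-! Project cw, module U6: the one-variable numerical inequality. -/

namespace Pool.Agent.helper81.CW

theorem U6_alpha : Real.sqrt (Real.pi / 6.7) ≤ 0.68476 := by
  rw [Real.sqrt_le_left (by norm_num)]
  have := Real.pi_lt_d6
  rw [div_le_iff₀ (by norm_num)]
  norm_num at this ⊢
  linarith

theorem U6_exp (s : ℝ) (h0 : 0 ≤ s) (h1 : s ≤ 1) (B : ℝ)
    (h : 1 + s + s ^ 2 / 2 + s ^ 3 / 6 + s ^ 4 / 24 + s ^ 5 / 120 + s ^ 6 / 720 + s ^ 7 * 8 / (5040 * 7) ≤ B) :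
    Real.exp s ≤ B := by
  refine (Real.exp_bound' h0 h1 (n := 7) (by norm_num)).trans (le_trans (le_of_eq ?_) h)
  simp only [Finset.sum_range_succ, Finset.sum_range_zero, Nat.factorial]
  push_cast
  ring

/-- tangent bound for the second factor -/
theorem U6_tan (E x t s : ℝ) (ht : 0 < t) (hE : E + x / t - 1 ≤ s)
    (hs : Real.exp s ≤ 1.8233 / t) : Real.exp E * x ≤ 1.8233 := by
  have h1 : x ≤ t * Real.exp (x / t - 1) := by
    have := Real.add_one_le_exp (x / t - 1)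
    calc x = t * (x / t - 1 + 1) := by field_simp; ring
      _ ≤ _ := mul_le_mul_of_nonneg_left this ht.le
  calc Real.exp E * x ≤ Real.exp E * (t * Real.exp (x / t - 1)) :=
        mul_le_mul_of_nonneg_left h1 (Real.exp_pos _).le
    _ = t * Real.exp (E + x / t - 1) := by rw [add_sub_assoc, Real.exp_add]; ring
    _ ≤ t * Real.exp s := mul_le_mul_of_nonneg_left (Real.exp_le_exp.2 hE) ht.le
    _ ≤ t * (1.8233 / t) := mul_le_mul_of_nonneg_left hs ht.le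
    _ = 1.8233 := by field_simp

theorem U6_P1 (γ : ℝ) (hγ : 0 ≤ γ) (hγ1 : γ ≤ 3023 / 10000) :
    67 / 10 * (30534256 / 100000000 - γ ^ 2) ^ 2 + 5 / 3 * γ ≤ 83 / 100 := by
  have h1 : 0 ≤ (3023 / 10000 - γ) * γ * (γ - 26 / 100) ^ 2 :=
    mul_nonneg (mul_nonneg (by linarith) hγ) (sq_nonneg _)
  have h2 : 0 ≤ γ * (γ - 26 / 100) ^ 2 := mul_nonneg hγ (sq_nonneg _)
  have h3 : 0 ≤ (3023 / 10000 - γ) * (γ - 26 / 100) ^ 2 := mul_nonneg (by linarith) (sq_nonneg _)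
  nlinarith only [h1, h2, h3, hγ, hγ1]

theorem U6_P2 (γ : ℝ) (hγ : 302 / 1000 ≤ γ) (hγ1 : γ ≤ 45 / 100) :
    536 / 10 * γ ^ 2 * (552579 / 1000000 - γ) ^ 2 + 5000 / 3581 * γ ≤ 76305 / 100000 := by
  have h1 : 0 ≤ (45 / 100 - γ) * (γ - 302 / 1000) * (γ - 3738 / 10000) ^ 2 :=
    mul_nonneg (mul_nonneg (by linarith) (by linarith)) (sq_nonneg _)
  have h2 : 0 ≤ (γ - 302 / 1000) * (γ - 3738 / 10000) ^ 2 := mul_nonneg (by linarith) (sq_nonneg _)
  have h3 : 0 ≤ (45 / 100 - γ) * (γ - 3738 / 10000) ^ 2 := mul_nonneg (by linarith) (sq_nonneg _)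
  nlinarith only [h1, h2, h3, hγ, hγ1]

theorem U6_P3 (γ : ℝ) (hγ : 45 / 100 ≤ γ) (hγ1 : γ ≤ 552579 / 1000000) :
    536 / 10 * γ ^ 2 * (552579 / 1000000 - γ) ^ 2 + 20 / 17 * γ ≤ 6655 / 10000 := by
  have h4 : γ * (552579 / 1000000 - γ) ≤ 4617 / 100000 := by nlinarith
  have h6 : 0 ≤ γ * (552579 / 1000000 - γ) := mul_nonneg (by linarith) (by linarith)
  have h5 : (γ * (552579 / 1000000 - γ)) * (γ * (552579 / 1000000 - γ)) ≤
      4617 / 100000 * (γ * (552579 / 1000000 - γ)) :=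
    mul_le_mul_of_nonneg_right h4 h6
  have h7 : 536 / 10 * γ ^ 2 * (552579 / 1000000 - γ) ^ 2 =
      536 / 10 * ((γ * (552579 / 1000000 - γ)) * (γ * (552579 / 1000000 - γ))) := by ring
  rw [h7]
  nlinarith only [h5, hγ, hγ1, sq_nonneg (γ - 514 / 1000)]

theorem U6 : U6_stmt := by
  intro κ γ hκ hκ2 hγ hγκ
  have hα := U6_alpha
  generalize Real.sqrt (Real.pi / 6.7) = α at hα ⊢
  have hκ1 : κ ≤ 0.552579 := by nlinarith
  have hκ0 : 0.552578 ≤ κ := by nlinarith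
  have hg2 : γ ^ 2 ≤ 0.30534256 := by nlinarith
  have hd : 0 ≤ κ - γ := by linarith
  rcases le_total (8 * γ ^ 2) ((κ + γ) ^ 2) with hc | hc
  · rw [max_eq_left hc]
    have hγ1 : γ ≤ 0.3023 := by nlinarith
    have hE : (κ - γ) ^ 2 * (κ + γ) ^ 2 = (0.30534256 - γ ^ 2) ^ 2 := by
      rw [← hκ2]; ring
    rw [hE]
    refine U6_tan _ _ 1.2 0.41 (by norm_num) ?_ (U6_exp _ (by norm_num) (by norm_num) _ (by norm_num))
    have hP := U6_P1 γ hγ (by norm_num at hγ1 ⊢; linarith)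
    have h3 : (2 * γ + α) / 1.2 ≤ 5 / 3 * γ + 0.68476 / 1.2 := by
      have : (2 * γ + α) / 1.2 ≤ (2 * γ + 0.68476) / 1.2 := by gcongr
      refine this.trans (le_of_eq ?_)
      norm_num
      ring
    clear hκ2 hκ1 hκ0 hc hE hd hα
    norm_num at h3 hP hg2 ⊢
    linarith
  · rw [max_eq_right hc]
    have hγ1 : 0.302 ≤ γ := by nlinarith
    have hsq : (κ - γ) ^ 2 ≤ (0.552579 - γ) ^ 2 := by
      apply pow_le_pow_left₀ hd; linarith
    have hE : (κ - γ) ^ 2 * (8 * γ ^ 2) ≤ (0.552579 - γ) ^ 2 * (8 * γ ^ 2) :=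
      mul_le_mul_of_nonneg_right hsq (by positivity)
    rcases le_total γ 0.45 with hγ2 | hγ2
    · refine U6_tan _ _ 1.4324 0.2412 (by norm_num) ?_ (U6_exp _ (by norm_num) (by norm_num) _ (by norm_num))
      have hP := U6_P2 γ (by norm_num at hγ1 ⊢; linarith) (by norm_num at hγ2 ⊢; linarith)
      have h3 : (2 * γ + α) / 1.4324 ≤ 5000 / 3581 * γ + 0.68476 / 1.4324 := by
        have : (2 * γ + α) / 1.4324 ≤ (2 * γ + 0.68476) / 1.4324 := by gcongr
        refine this.trans (le_of_eq ?_)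
        norm_num
        ring
      have hg3 : γ ^ 2 ≤ 0.2025 := by nlinarith
      clear hκ2 hκ1 hκ0 hc hsq hd hα hg2
      norm_num at h3 hP hg3 hE ⊢
      nlinarith only [h3, hP, hg3, hE]
    · refine U6_tan _ _ 1.7 0.069 (by norm_num) ?_ (U6_exp _ (by norm_num) (by norm_num) _ (by norm_num))
      have hP := U6_P3 γ (by norm_num at hγ2 ⊢; linarith) (by norm_num at hκ1 ⊢; linarith)
      have h3 : (2 * γ + α) / 1.7 ≤ 20 / 17 * γ + 0.68476 / 1.7 := by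
        have : (2 * γ + α) / 1.7 ≤ (2 * γ + 0.68476) / 1.7 := by gcongr
        refine this.trans (le_of_eq ?_)
        norm_num
        ring
      clear hκ2 hκ1 hκ0 hc hsq hd hα
      norm_num at h3 hP hg2 hE ⊢
      nlinarith only [h3, hP, hg2, hE]

end Pool.Agent.helper81.CW
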