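import Pool.Agent.helper81.CW.Spec1

/-! Project cw, module V3: the entropy sum, from V1. -/

open Finset

namespace Pool.Agent.helper81.CW

/-- `C(k+l,k) k^k l^l ≤ (k+l)^(k+l)` -/
theorem V3_choose (k l : ℕ) :
    (((k + l).choose k : ℕ) : ℝ) * (k : ℝ) ^ k * (l : ℝ) ^ l ≤ ((k + l : ℕ) : ℝ) ^ (k + l) := by
  push_cast
  rw [add_pow]
  have := Finset.single_le_sum (f := fun m => (k : ℝ) ^ m * (l : ℝ) ^ (k + l - m) * ((k + l).choose m : ℝ))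
    (s := Finset.range (k + l + 1)) (fun i _ => by positivity) (a := k) (by simp)
  refine le_trans (le_of_eq ?_) this
  simp only [Nat.add_sub_cancel_left]
  ring

theorem V3_half (x : ℝ) (hx : 0 ≤ x) (m : ℕ) : x ^ ((m : ℝ) / 2) = Real.sqrt (x ^ m) := by
  rw [Real.sqrt_eq_rpow, ← Real.rpow_natCast x m, ← Real.rpow_mul hx]
  congr 1
  ring

theorem V3_half' (x : ℝ) (hx : 0 ≤ x) (m : ℕ) : x ^ ((m : ℝ) / 2) = Real.sqrt x ^ m := by
  rw [Real.sqrt_eq_rpow, ← Real.rpow_natCast, ← Real.rpow_mul hx]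
  congr 1
  ring

theorem V3_self_pos (m : ℕ) : 0 < ((m : ℝ) ^ m) := by
  rcases Nat.eq_zero_or_pos m with h | h
  · subst h; simp
  · positivity

/-- the product of two balls -/
theorem V3_term (c : ℝ) (hc : 0 < c) (h : ∀ m : ℕ,
    c / ((m : ℝ) + 1) ^ 2 * (2 * Real.pi * Real.exp 1) ^ ((m : ℝ) / 2) / (m : ℝ) ^ ((m : ℝ) / 2) ≤ kap m)
    (k l : ℕ) :
    c ^ 2 / (((k + l : ℕ) : ℝ) + 1) ^ 4 * Real.sqrt (2 * Real.pi * Real.exp 1) ^ (k + l) *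
      Real.sqrt (((k + l).choose k : ℕ) : ℝ) / ((k + l : ℕ) : ℝ) ^ (((k + l : ℕ) : ℝ) / 2) ≤ kap l * kap k := by
  have hD : (0 : ℝ) ≤ 2 * Real.pi * Real.exp 1 := by positivity
  set D := Real.sqrt (2 * Real.pi * Real.exp 1) with hDd
  have hD0 : 0 ≤ D := Real.sqrt_nonneg _
  have hk := h k
  have hl := h l
  rw [V3_half' _ hD, V3_half _ (Nat.cast_nonneg k)] at hk
  rw [V3_half' _ hD, V3_half _ (Nat.cast_nonneg l)] at hl
  rw [V3_half _ (Nat.cast_nonneg (k + l))]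
  rw [← hDd] at hk hl
  have hsk : 0 < Real.sqrt ((k : ℝ) ^ k) := Real.sqrt_pos.2 (V3_self_pos k)
  have hsl : 0 < Real.sqrt ((l : ℝ) ^ l) := Real.sqrt_pos.2 (V3_self_pos l)
  have hsn : 0 < Real.sqrt (((k + l : ℕ) : ℝ) ^ (k + l)) := Real.sqrt_pos.2 (V3_self_pos (k + l))
  have hlow : 0 ≤ c / ((k : ℝ) + 1) ^ 2 * D ^ k / Real.sqrt ((k : ℝ) ^ k) := by positivity
  have hlow' : 0 ≤ c / ((l : ℝ) + 1) ^ 2 * D ^ l / Real.sqrt ((l : ℝ) ^ l) := by positivity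
  refine le_trans ?_ (mul_le_mul hl hk hlow (hlow'.trans hl))
  have hprod : Real.sqrt (((k + l).choose k : ℕ) : ℝ) * (Real.sqrt ((k : ℝ) ^ k) * Real.sqrt ((l : ℝ) ^ l)) ≤
      Real.sqrt (((k + l : ℕ) : ℝ) ^ (k + l)) := by
    rw [← Real.sqrt_mul (by positivity), ← Real.sqrt_mul (by positivity)]
    apply Real.sqrt_le_sqrt
    rw [← mul_assoc]
    exact V3_choose k l
  have hpoly : (((k : ℝ) + 1) ^ 2 * ((l : ℝ) + 1) ^ 2) ≤ (((k + l : ℕ) : ℝ) + 1) ^ 4 := by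
    have hk0 : (0 : ℝ) ≤ k := Nat.cast_nonneg k
    have hl0 : (0 : ℝ) ≤ l := Nat.cast_nonneg l
    push_cast
    have : ((k : ℝ) + 1) * ((l : ℝ) + 1) ≤ ((k : ℝ) + l + 1) ^ 2 := by nlinarith [mul_nonneg hk0 hl0]
    calc (((k : ℝ) + 1) ^ 2 * ((l : ℝ) + 1) ^ 2) = (((k : ℝ) + 1) * ((l : ℝ) + 1)) ^ 2 := by ring
      _ ≤ (((k : ℝ) + l + 1) ^ 2) ^ 2 := by gcongr
      _ = _ := by ring
  have h1 : Real.sqrt (((k + l).choose k : ℕ) : ℝ) / Real.sqrt (((k + l : ℕ) : ℝ) ^ (k + l)) ≤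
      1 / (Real.sqrt ((k : ℝ) ^ k) * Real.sqrt ((l : ℝ) ^ l)) := by
    rw [div_le_div_iff₀ hsn (by positivity)]
    linarith
  calc c ^ 2 / (((k + l : ℕ) : ℝ) + 1) ^ 4 * D ^ (k + l) *
      Real.sqrt (((k + l).choose k : ℕ) : ℝ) / Real.sqrt (((k + l : ℕ) : ℝ) ^ (k + l))
      = (c ^ 2 / (((k + l : ℕ) : ℝ) + 1) ^ 4 * D ^ (k + l)) *
        (Real.sqrt (((k + l).choose k : ℕ) : ℝ) / Real.sqrt (((k + l : ℕ) : ℝ) ^ (k + l))) := by ring
    _ ≤ (c ^ 2 / (((k : ℝ) + 1) ^ 2 * ((l : ℝ) + 1) ^ 2) * D ^ (k + l)) *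
        (1 / (Real.sqrt ((k : ℝ) ^ k) * Real.sqrt ((l : ℝ) ^ l))) := by
        gcongr
    _ = _ := by
        rw [pow_add]
        field_simp

theorem V3 (h : V1_stmt) : V3_stmt := by
  obtain ⟨c, hc, h⟩ := h
  refine ⟨c ^ 2, by positivity, ?_⟩
  intro n a b hn ha hb
  have hn0 : (0 : ℝ) ≤ n := Nat.cast_nonneg n
  set D := Real.sqrt (2 * Real.pi * Real.exp 1) with hDd
  have hD0 : 0 ≤ D := Real.sqrt_nonneg _
  set S := (n : ℝ) ^ ((n : ℝ) / 2) with hS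
  have hS0 : 0 < S := Real.rpow_pos_of_pos (by exact_mod_cast hn) _
  -- the power sum
  have hpow : ((a + b) ^ ((3 : ℝ) / 2)) ^ n ≤ ((n : ℝ) + 1) *
      ∑ k ∈ Finset.range (n + 1), ((n.choose k : ℝ) * a ^ (n - k) * b ^ k) ^ ((3 : ℝ) / 2) := by
    have h1 := Real.rpow_sum_le_const_mul_sum_rpow_of_nonneg (s := Finset.range (n + 1))
      (f := fun k => (n.choose k : ℝ) * a ^ (n - k) * b ^ k) (p := (3 : ℝ) / 2) (by norm_num)
      (fun k _ => by positivity)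
    have h2 : ∑ k ∈ Finset.range (n + 1), (n.choose k : ℝ) * a ^ (n - k) * b ^ k = (a + b) ^ n := by
      rw [add_comm a b, add_pow]
      exact Finset.sum_congr rfl fun k _ => by ring
    rw [h2] at h1
    have h3 : ((a + b) ^ ((3 : ℝ) / 2)) ^ n = ((a + b) ^ n) ^ ((3 : ℝ) / 2) := by
      rw [← Real.rpow_natCast, ← Real.rpow_natCast, ← Real.rpow_mul (by positivity), ← Real.rpow_mul (by positivity),
        mul_comm]
    rw [h3]
    refine h1.trans ?_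
    apply mul_le_mul_of_nonneg_right _ (Finset.sum_nonneg fun k _ => by positivity)
    rw [Finset.card_range]
    push_cast
    calc ((n : ℝ) + 1) ^ ((3 : ℝ) / 2 - 1) ≤ ((n : ℝ) + 1) ^ (1 : ℝ) :=
          Real.rpow_le_rpow_of_exponent_le (by linarith) (by norm_num)
      _ = _ := Real.rpow_one _
  -- the terms
  have hterm : ∀ k ∈ Finset.range (n + 1),
      c ^ 2 / ((n : ℝ) + 1) ^ 4 * (D / 2) ^ n / S * ((n.choose k : ℝ) * a ^ (n - k) * b ^ k) ^ ((3 : ℝ) / 2) ≤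
      (n.choose k : ℝ) * (1 / 2) ^ n * kap (n - k) * kap k *
        (a ^ ((3 : ℝ) / 2)) ^ (n - k) * (b ^ ((3 : ℝ) / 2)) ^ k := by
    intro k hk
    have hkn : k ≤ n := Nat.lt_succ_iff.1 (Finset.mem_range.1 hk)
    obtain ⟨l, rfl⟩ := Nat.exists_eq_add_of_le hkn
    rw [Nat.add_sub_cancel_left]
    have h1 := V3_term c hc h k l
    rw [← hDd, ← hS] at h1
    have hC : (0 : ℝ) ≤ ((k + l).choose k : ℝ) := Nat.cast_nonneg _
    have h2 : (((k + l).choose k : ℝ) * a ^ l * b ^ k) ^ ((3 : ℝ) / 2) =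
        ((k + l).choose k : ℝ) * Real.sqrt ((k + l).choose k : ℝ) * (a ^ ((3 : ℝ) / 2)) ^ l *
          (b ^ ((3 : ℝ) / 2)) ^ k := by
      rw [Real.mul_rpow (by positivity) (by positivity), Real.mul_rpow hC (by positivity)]
      have e1 : ((k + l).choose k : ℝ) ^ ((3 : ℝ) / 2) =
          ((k + l).choose k : ℝ) * Real.sqrt ((k + l).choose k : ℝ) := by
        rw [Real.sqrt_eq_rpow, show ((3 : ℝ) / 2) = 1 + 1 / 2 by norm_num, Real.rpow_add' hC (by norm_num),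
          Real.rpow_one]
      have e2 : ∀ (x : ℝ) (m : ℕ), 0 ≤ x → (x ^ m) ^ ((3 : ℝ) / 2) = (x ^ ((3 : ℝ) / 2)) ^ m := by
        intro x m hx
        rw [← Real.rpow_natCast, ← Real.rpow_natCast, ← Real.rpow_mul hx, ← Real.rpow_mul hx, mul_comm]
      rw [e1, e2 a l ha, e2 b k hb]
    rw [h2]
    calc c ^ 2 / (((k + l : ℕ) : ℝ) + 1) ^ 4 * (D / 2) ^ (k + l) / S *
          (((k + l).choose k : ℝ) * Real.sqrt ((k + l).choose k : ℝ) * (a ^ ((3 : ℝ) / 2)) ^ l *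
          (b ^ ((3 : ℝ) / 2)) ^ k)
        = (c ^ 2 / (((k + l : ℕ) : ℝ) + 1) ^ 4 * D ^ (k + l) *
            Real.sqrt (((k + l).choose k : ℕ) : ℝ) / S) *
          (((k + l).choose k : ℝ) * (1 / 2) ^ (k + l) * (a ^ ((3 : ℝ) / 2)) ^ l *
          (b ^ ((3 : ℝ) / 2)) ^ k) := by
          rw [div_pow, one_div, inv_pow]
          ring
      _ ≤ (kap l * kap k) * (((k + l).choose k : ℝ) * (1 / 2) ^ (k + l) * (a ^ ((3 : ℝ) / 2)) ^ l *
          (b ^ ((3 : ℝ) / 2)) ^ k) := by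
          apply mul_le_mul_of_nonneg_right h1
          positivity
      _ = _ := by ring
  refine le_trans ?_ (Finset.sum_le_sum hterm)
  rw [← Finset.mul_sum]
  have hX : 0 ≤ c ^ 2 / ((n : ℝ) + 1) ^ 4 * (D / 2) ^ n / S := by positivity
  have h1 : ((a + b) ^ ((3 : ℝ) / 2)) ^ n / ((n : ℝ) + 1) ≤
      ∑ k ∈ Finset.range (n + 1), ((n.choose k : ℝ) * a ^ (n - k) * b ^ k) ^ ((3 : ℝ) / 2) := by
    rw [div_le_iff₀ (by positivity)]
    linarith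
  refine le_trans (le_of_eq ?_) (mul_le_mul_of_nonneg_left h1 hX)
  rw [mul_pow]
  field_simp

end Pool.Agent.helper81.CW
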